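import Pool.Agent.W2helper73.WG.Expo

/-!
# Level sets of the growth exponent of Weyl sums

For every `d ≥ 2` and every `α` in `(2/3, 1)` the set of coefficient vectors in `[0,1)^d` at which the
growth exponent of the Weyl sums is exactly `α` has positive Hausdorff dimension.

Method: at the points `(0, t, 0, …, 0)` the sums are the quadratic sums `∑ e(t n^2)`. With
`τ = α / (1 - α) > 2`, let `t` have ternary digits equal to zero at all places between `n_k` and
`m_k ≈ (1 + τ) n_k`, where `n_(k+1) ≈ 2 τ n_k`, the digits at the places between `m_k` and `n_(k+1)`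
being free.  Weyl's inequality, with the denominators `3^(n_k)` and with denominators of size about
`3^(m_k - n_k)`, bounds all sums, and the value `3^(n_k / 2)` of the Gauss sum modulo `3^(n_k)` shows
that the bound is attained infinitely often.  The numbers `t` form a set of positive dimension since the
free places have positive lower density.
-/

set_option autoImplicit false
set_option maxHeartbeats 4000000

open Filter

namespace Pool.Agent.Results.MP_3c4aa6_nt.LevelSets

open Pool.Agent.W2helper73.WG

/-- The Weyl sum `S_d(x; N) = ∑_{n=1}^{N} exp(2 π i (x_1 n + x_2 n^2 + ⋯ + x_d n^d))`; the coefficient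
`x_(j+1)` is `x j`, `j = 0, …, d - 1`. -/
noncomputable def S (d : ℕ) (x : Fin d → ℝ) (N : ℕ) : ℂ :=
  ∑ n ∈ Finset.Icc 1 N, Complex.exp (2 * (Real.pi : ℂ) * Complex.I *
    ((∑ j : Fin d, x j * (n : ℝ) ^ ((j : ℕ) + 1) : ℝ) : ℂ))

/-- The growth exponent `σ(x) = limsup_{N → ∞} log |S_d(x; N)| / log N`, as an extended real number.
(`Real.log 0 = 0` in Mathlib, so the quotient is `0` for the `N` with `S_d(x; N) = 0`.  This does not
change the upper limit, which is never negative: of two consecutive sums at least one has absolute value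
at least `1/2`.) -/
noncomputable def sigma (d : ℕ) (x : Fin d → ℝ) : EReal :=
  limsup (fun N : ℕ => ((Real.log ‖S d x N‖ / Real.log N : ℝ) : EReal)) atTop

/-- `Ω_α`: the points `x ∈ [0,1)^d` with `σ(x) = α`. -/
def Omega (d : ℕ) (α : ℝ) : Set (Fin d → ℝ) :=
  {x | (∀ i, 0 ≤ x i ∧ x i < 1) ∧ sigma d x = (α : EReal)}

/-- at the point `(0, t, 0, …, 0)` the sum is the quadratic one -/
theorem S_point (d : ℕ) (hd : 2 ≤ d) (t : ℝ) (N : ℕ) :
    S d (fun i => if (i : ℕ) = 1 then t else 0) N = Pool.Agent.W928.MW.sm 2 N t 0 := by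
  unfold S Pool.Agent.W928.MW.sm Pool.Agent.W928.MW.e
  apply Finset.sum_congr rfl
  intro n _
  congr 2
  have h1 : ∑ j : Fin d, (if (j : ℕ) = 1 then t else 0) * (n : ℝ) ^ ((j : ℕ) + 1) = t * (n : ℝ) ^ 2 := by
    rw [Finset.sum_eq_single (⟨1, by omega⟩ : Fin d)]
    · simp
    · intro j _ hj
      rw [if_neg, zero_mul]
      intro h
      exact hj (Fin.ext h)
    · intro h
      exact absurd (Finset.mem_univ _) h
  rw [h1]
  push_cast
  ring

/-- the growth exponent at the points with prescribed approximations -/
theorem sigma_good {τ : ℝ} {n0 : ℕ} (hB : Big τ n0) (t : ℝ) (ht : Good τ n0 t) (d : ℕ) (hd : 2 ≤ d) :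
    sigma d (fun i => if (i : ℕ) = 1 then t else 0) = ((τ / (1 + τ) : ℝ) : EReal) := by
  have hτ := hB.1
  set α : ℝ := τ / (1 + τ) with hα
  have hα0 : 0 < α := by positivity
  unfold sigma
  simp only [S_point d hd]
  apply le_antisymm
  · by_contra hcon
    rw [not_le] at hcon
    obtain ⟨c, hc1, hc2⟩ := EReal.lt_iff_exists_real_btwn.mp hcon
    have hc1' : α < c := EReal.coe_lt_coe_iff.mp hc1
    obtain ⟨C, hC0, hC⟩ := upper hB t ht (c - α) (by linarith)
    have hev : ∀ᶠ N : ℕ in atTop, (2 / (c - α)) * ((1 / 2) * Real.log C) ≤ Real.log N := by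
      have h1 : Tendsto (fun N : ℕ => Real.log (N : ℝ)) atTop atTop :=
        Real.tendsto_log_atTop.comp tendsto_natCast_atTop_atTop
      exact h1.eventually_ge_atTop _
    have h2 : limsup (fun N : ℕ => ((Real.log ‖Pool.Agent.W928.MW.sm 2 N t 0‖ / Real.log N : ℝ) : EReal))
        atTop ≤ (c : EReal) := by
      apply limsup_le_of_le
      · isBoundedDefault
      · filter_upwards [hev, eventually_ge_atTop 2] with N hN hN2
        rw [EReal.coe_le_coe_iff]
        have hN2r : (2 : ℝ) ≤ N := by exact_mod_cast hN2
        have hlog : 0 < Real.log N := Real.log_pos (by linarith)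
        rw [div_le_iff₀ hlog]
        rcases eq_or_ne (‖Pool.Agent.W928.MW.sm 2 N t 0‖) 0 with h0 | h0
        · rw [h0, Real.log_zero]
          have : 0 < c := by linarith
          positivity
        · have hpos : 0 < ‖Pool.Agent.W928.MW.sm 2 N t 0‖ := lt_of_le_of_ne (norm_nonneg _) (Ne.symm h0)
          have h3 := hC N (by omega)
          have h4 := Real.log_le_log (by positivity) h3
          have hN0 : (0 : ℝ) < N := by linarith
          rw [Real.log_pow, Real.log_mul (by positivity) (by positivity),
            Real.log_mul (by positivity) (by positivity), Real.log_rpow hN0, Real.log_rpow hN0] at h4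
          push_cast at h4
          have h5 : (1 / 2) * Real.log C ≤ (c - α) / 2 * Real.log N := by
            have h6 : 0 < (c - α) / 2 := by linarith
            have h7 := mul_le_mul_of_nonneg_left hN h6.le
            have h8 : (c - α) / 2 * (2 / (c - α) * (1 / 2 * Real.log C)) = (1 / 2) * Real.log C := by
              have : c - α ≠ 0 := by linarith
              field_simp
            rw [h8] at h7
            exact h7
          nlinarith
    exact absurd hc2 (not_lt.mpr h2)
  · by_contra hcon
    rw [not_le] at hcon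
    obtain ⟨c, hc1, hc2⟩ := EReal.lt_iff_exists_real_btwn.mp hcon
    have hc2' : c < α := EReal.coe_lt_coe_iff.mp hc2
    have hev := eventually_lt_of_limsup_lt hc1 (by isBoundedDefault)
    have hev2 : ∀ᶠ N : ℕ in atTop, (1 / (α - c)) * Real.log 80 ≤ Real.log N := by
      have h1 : Tendsto (fun N : ℕ => Real.log (N : ℝ)) atTop atTop :=
        Real.tendsto_log_atTop.comp tendsto_natCast_atTop_atTop
      exact h1.eventually_ge_atTop _
    obtain ⟨K, hK⟩ := eventually_atTop.mp ((hev.and hev2).and (eventually_ge_atTop 2))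
    obtain ⟨N, hNK, hN⟩ := lower_often hB t ht K
    obtain ⟨⟨h1, h2⟩, h3⟩ := hK N hNK
    rw [EReal.coe_lt_coe_iff] at h1
    have hN2r : (2 : ℝ) ≤ N := by exact_mod_cast h3
    have hN0 : (0 : ℝ) < N := by linarith
    have hlog : 0 < Real.log N := Real.log_pos (by linarith)
    rw [div_lt_iff₀ hlog] at h1
    have h4 := Real.log_le_log (by positivity) hN
    rw [Real.log_mul (by norm_num) (by positivity), Real.log_rpow hN0, Real.log_div (by norm_num) (by norm_num),
      Real.log_one] at h4
    have h5 : Real.log 80 ≤ (α - c) * Real.log N := by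
      have h6 : 0 < α - c := by linarith
      have h7 := mul_le_mul_of_nonneg_left h2 h6.le
      have h8 : (α - c) * (1 / (α - c) * Real.log 80) = Real.log 80 := by
        have : α - c ≠ 0 := by linarith
        field_simp
      rw [h8] at h7
      exact h7
    rw [← hα] at h4
    nlinarith

/-- **Answer to Q1 (yes, for every `d ≥ 2`).** The set `(2/3, 1)` has positive Lebesgue measure, and for
every `d ≥ 2` and every `α` in it, the level set `Ω_α^{(d)}` has positive Hausdorff dimension. -/
theorem result : 0 < MeasureTheory.volume (Set.Ioo (2 / 3 : ℝ) 1) ∧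
    ∀ d : ℕ, 2 ≤ d → ∀ α ∈ Set.Ioo (2 / 3 : ℝ) 1, 0 < dimH (Omega d α) := by
  classical
  refine ⟨?_, ?_⟩
  · rw [Real.volume_Ioo]
    exact ENNReal.ofReal_pos.mpr (by norm_num)
  · rintro d hd α ⟨hα1, hα2⟩
    set τ : ℝ := α / (1 - α) with hτ
    have h1α : 0 < 1 - α := by linarith
    have hτ2 : 2 < τ := by
      rw [hτ, lt_div_iff₀ h1α]
      linarith
    have hα : τ / (1 + τ) = α := by
      rw [hτ]
      field_simp
      ring
    obtain ⟨n0, hB⟩ := exists_big τ hτ2
    refine lt_of_lt_of_le (dim_good hB) ?_
    have hL : LipschitzWith 1 (fun x : Fin d → ℝ => x ⟨1, by omega⟩) := LipschitzWith.eval _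
    refine le_trans (dimH_mono ?_) (hL.dimH_image_le (Omega d α))
    rintro t ⟨b, rfl⟩
    simp only
    set t : ℝ := Real.ofDigits (dig (Fr τ n0) (cc τ n0) b) with ht
    refine ⟨fun i => if (i : ℕ) = 1 then t else 0, ⟨?_, ?_⟩, by simp⟩
    · intro i
      simp only
      split_ifs
      · refine ⟨Real.ofDigits_nonneg _, ?_⟩
        have := ofDigits_le_half _ (dig_le (Fr τ n0) (cc τ n0) (cc_le τ n0) b)
        rw [← ht] at this
        linarith
      · norm_num
    · rw [sigma_good hB t (good_dig hB b) d hd, hα]

end Pool.Agent.Results.MP_3c4aa6_nt.LevelSets
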